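import Pool.Agent.Y163.MW.Base

/-!
# Strings are centred (`StF`)
-/

set_option autoImplicit false

open Module

namespace Pool.Agent.Y614.MW

open Pool.Agent.Y163.MW

universe u v

section

variable {K : Type u} [Field K] {V : Type v} [AddCommGroup V] [Module K V]
  {gr : ℤ → Submodule K V} {N : Module.End K V}

/-- the weight of a basis vector -/
def wt (S : Strings gr N) (p : Σ s : S.ι, Fin (S.len s + 1)) : ℤ := S.top p.1 - 2 * (p.2 : ℕ)

lemma repr_eq_zero_of_mem (hgr : DirectSum.IsInternal gr) (S : Strings gr N) {r : ℤ} {x : V}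
    (hx : x ∈ gr r) (p : Σ s : S.ι, Fin (S.len s + 1)) (hp : wt S p ≠ r) : S.b.repr x p = 0 := by
  classical
  set x1 : V := ∑ q ∈ Finset.univ.filter (fun q => wt S q = r), S.b.repr x q • S.b q with hx1
  set x2 : V := ∑ q ∈ Finset.univ.filter (fun q => ¬ wt S q = r), S.b.repr x q • S.b q with hx2
  have hsum : x1 + x2 = x := by
    rw [hx1, hx2, Finset.sum_filter_add_sum_filter_not]
    exact S.b.sum_repr x
  have h1 : x1 ∈ gr r := by
    refine Submodule.sum_mem _ fun q hq => Submodule.smul_mem _ _ ?_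
    have hq' : wt S q = r := (Finset.mem_filter.1 hq).2
    rw [← hq']
    exact S.mem q.1 q.2
  have h2 : x2 ∈ ⨆ j, ⨆ (_ : j ≠ r), gr j := by
    refine Submodule.sum_mem _ fun q hq => Submodule.smul_mem _ _ ?_
    have hq' : wt S q ≠ r := (Finset.mem_filter.1 hq).2
    exact Submodule.mem_iSup_of_mem (wt S q) (Submodule.mem_iSup_of_mem hq' (S.mem q.1 q.2))
  have h3 : x2 ∈ gr r := by
    have : x2 = x - x1 := by rw [← hsum]; abel
    rw [this]
    exact sub_mem hx h1
  have h4 : x2 = 0 := by
    have hd := hgr.submodule_iSupIndep r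
    exact Submodule.disjoint_def.1 hd x2 h3 h2
  have h5 : S.b.repr x2 p = S.b.repr x p := by
    rw [hx2]
    simp only [map_sum, map_smul, Basis.repr_self, Finsupp.coe_finsetSum, Finsupp.coe_smul,
      Finset.sum_apply, Pi.smul_apply, smul_eq_mul]
    rw [Finset.sum_eq_single p]
    · simp
    · intro q _ hqp
      rw [Finsupp.single_eq_of_ne (Ne.symm hqp), mul_zero]
    · intro h
      exfalso
      apply h
      rw [Finset.mem_filter]
      exact ⟨Finset.mem_univ _, hp⟩
  rw [← h5, h4]
  simp

lemma mem_of_repr (S : Strings gr N) {r : ℤ} {x : V}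
    (h : ∀ p, wt S p ≠ r → S.b.repr x p = 0) : x ∈ gr r := by
  classical
  rw [← S.b.sum_repr x]
  refine Submodule.sum_mem _ fun q _ => ?_
  by_cases hq : wt S q = r
  · refine Submodule.smul_mem _ _ ?_
    rw [← hq]
    exact S.mem q.1 q.2
  · rw [h q hq, zero_smul]
    exact zero_mem _

lemma repr_succ (S : Strings gr N) (s : S.ι) (i : ℕ) (h : i + 1 < S.len s + 1) (x : V) :
    S.b.repr (N x) ⟨s, ⟨i + 1, h⟩⟩ = S.b.repr x ⟨s, ⟨i, by omega⟩⟩ := by
  classical
  have key : (S.b.coord ⟨s, ⟨i + 1, h⟩⟩) ∘ₗ N = S.b.coord ⟨s, ⟨i, by omega⟩⟩ := by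
    refine S.b.ext ?_
    rintro ⟨s', j⟩
    rw [LinearMap.comp_apply, Basis.coord_apply, Basis.coord_apply]
    induction j using Fin.lastCases with
    | last =>
      rw [S.last, map_zero, Basis.repr_self, Finsupp.single_eq_of_ne, Finsupp.zero_apply]
      rintro e
      rw [Sigma.mk.injEq] at e
      obtain ⟨rfl, e⟩ := e
      rw [heq_eq_eq, Fin.ext_iff] at e
      simp only [Fin.val_last] at e
      omega
    | cast j =>
      rw [S.succ, Basis.repr_self, Basis.repr_self]
      by_cases e : s' = s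
      · subst e
        by_cases e' : (j : ℕ) = i
        · have e1 : (⟨s', j.succ⟩ : Σ s : S.ι, Fin (S.len s + 1)) = ⟨s', ⟨i + 1, h⟩⟩ := by
            rw [Sigma.mk.injEq, heq_eq_eq, Fin.ext_iff]
            simp [e']
          have e2 : (⟨s', j.castSucc⟩ : Σ s : S.ι, Fin (S.len s + 1)) = ⟨s', ⟨i, by omega⟩⟩ := by
            rw [Sigma.mk.injEq, heq_eq_eq, Fin.ext_iff]
            simp [e']
          rw [e1, e2, Finsupp.single_eq_same, Finsupp.single_eq_same]
        · rw [Finsupp.single_eq_of_ne, Finsupp.single_eq_of_ne]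
          · intro e1
            rw [Sigma.mk.injEq, heq_eq_eq, Fin.ext_iff] at e1
            simp only [Fin.val_castSucc] at e1
            omega
          · intro e1
            rw [Sigma.mk.injEq, heq_eq_eq, Fin.ext_iff] at e1
            simp only [Fin.val_succ] at e1
            omega
      · rw [Finsupp.single_eq_of_ne, Finsupp.single_eq_of_ne]
        · intro e1
          rw [Sigma.mk.injEq] at e1
          exact e e1.1.symm
        · intro e1
          rw [Sigma.mk.injEq] at e1
          exact e e1.1.symm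
  have := LinearMap.congr_fun key x
  rwa [LinearMap.comp_apply, Basis.coord_apply, Basis.coord_apply] at this

lemma repr_zero (S : Strings gr N) (s : S.ι) (h : 0 < S.len s + 1) (x : V) :
    S.b.repr (N x) ⟨s, ⟨0, h⟩⟩ = 0 := by
  classical
  have key : (S.b.coord ⟨s, ⟨0, h⟩⟩) ∘ₗ N = 0 := by
    refine S.b.ext ?_
    rintro ⟨s', j⟩
    rw [LinearMap.comp_apply, Basis.coord_apply, LinearMap.zero_apply]
    induction j using Fin.lastCases with
    | last =>
      rw [S.last, map_zero, Finsupp.zero_apply]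
    | cast j =>
      rw [S.succ, Basis.repr_self, Finsupp.single_eq_of_ne]
      rintro e
      rw [Sigma.mk.injEq] at e
      obtain ⟨rfl, e⟩ := e
      rw [heq_eq_eq, Fin.ext_iff] at e
      simp only [Fin.val_succ] at e
      omega
  have := LinearMap.congr_fun key x
  rwa [LinearMap.comp_apply, Basis.coord_apply, LinearMap.zero_apply] at this

lemma repr_pow (S : Strings gr N) (s : S.ι) (i a : ℕ) (h : i + a < S.len s + 1) (x : V) :
    S.b.repr ((N ^ a) x) ⟨s, ⟨i + a, h⟩⟩ = S.b.repr x ⟨s, ⟨i, by omega⟩⟩ := by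
  induction a with
  | zero => simp
  | succ a ih =>
    rw [pow_succ', Module.End.mul_apply]
    have := repr_succ S s (i + a) (by omega) ((N ^ a) x)
    rw [ih (by omega)] at this
    exact this

lemma repr_pow_lt (S : Strings gr N) (s : S.ι) (i a : ℕ) (h : i < S.len s + 1) (hi : i < a)
    (x : V) : S.b.repr ((N ^ a) x) ⟨s, ⟨i, h⟩⟩ = 0 := by
  induction a generalizing i with
  | zero => omega
  | succ a ih =>
    rw [pow_succ', Module.End.mul_apply]
    rcases i with _ | i
    · exact repr_zero S s h _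
    · rw [repr_succ S s i h]
      exact ih i (by omega) (by omega)

end

theorem stF : StF.{u, v} := by
  intro K _ V _ _ gr N hgr S
  classical
  constructor
  · intro hC s
    set t := S.top s with ht
    set l := S.len s with hl
    have hw : S.b ⟨s, Fin.last (S.len s)⟩ ∈ gr (t - 2 * l) := by
      have := S.mem s (Fin.last (S.len s))
      simpa using this
    have hNw := S.last s
    have hne : ∀ p, S.b p ≠ 0 := fun p => S.b.ne_zero p
    have h1 : t - 2 * l ≤ 0 := by
      by_contra hcon
      push Not at hcon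
      obtain ⟨a, ha⟩ : ∃ a : ℕ, ((a + 1 : ℕ) : ℤ) = t - 2 * l := ⟨(t - 2 * l - 1).toNat, by omega⟩
      rw [← ha] at hw
      refine hne _ ((hC (a + 1)).1 _ hw ?_)
      rw [pow_succ, Module.End.mul_apply, hNw, map_zero]
    obtain ⟨a, ha⟩ : ∃ a : ℕ, -(a : ℤ) = t - 2 * l := ⟨(2 * l - t).toNat, by omega⟩
    rw [← ha] at hw
    obtain ⟨x, hx, hx'⟩ := (hC a).2 _ hw
    have hal : a ≤ l := by
      by_contra hcon
      push Not at hcon
      have h2 := repr_pow_lt S s l a (by omega) hcon x
      rw [hx', Basis.repr_self] at h2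
      have e : (⟨s, Fin.last (S.len s)⟩ : Σ s : S.ι, Fin (S.len s + 1)) = ⟨s, ⟨l, by omega⟩⟩ := by
        rw [Sigma.mk.injEq, heq_eq_eq, Fin.ext_iff]
        simp [hl]
      rw [e, Finsupp.single_eq_same] at h2
      exact one_ne_zero h2
    have h3 : (l : ℤ) ≤ t := by omega
    obtain ⟨c, hc⟩ : ∃ c : ℕ, (c : ℤ) = t := ⟨t.toNat, by omega⟩
    have h0 : S.b ⟨s, ⟨0, by omega⟩⟩ ∈ gr c := by
      have := S.mem s ⟨0, by omega⟩
      rw [hc]
      simpa using this
    have hcl : c ≤ l := by
      by_contra hcon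
      push Not at hcon
      refine hne _ ((hC c).1 _ h0 ?_)
      apply S.b.repr.injective
      rw [map_zero]
      ext ⟨s', i⟩
      rw [Finsupp.zero_apply]
      obtain ⟨i, hi⟩ := i
      rcases lt_or_ge i c with hic | hic
      · exact repr_pow_lt S s' i c hi hic _
      · obtain ⟨j, rfl⟩ := Nat.exists_eq_add_of_le' hic
        rw [repr_pow S s' j c hi, Basis.repr_self, Finsupp.single_eq_of_ne]
        intro e
        rw [Sigma.mk.injEq] at e
        obtain ⟨rfl, e⟩ := e
        omega
    omega
  · intro htop a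
    have hwt : ∀ (s : S.ι) (i : Fin (S.len s + 1)), wt S ⟨s, i⟩ = S.len s - 2 * (i : ℕ) := by
      intro s i
      rw [wt, htop]
    constructor
    · intro x hx h0
      apply S.b.repr.injective
      rw [map_zero]
      ext ⟨s, ⟨i, hi⟩⟩
      rw [Finsupp.zero_apply]
      by_cases hw : wt S ⟨s, ⟨i, hi⟩⟩ = a
      · rw [hwt] at hw
        simp only at hw
        have := repr_pow S s i a (by omega) x
        rw [h0, map_zero, Finsupp.zero_apply] at this
        exact this.symm
      · exact repr_eq_zero_of_mem hgr S hx _ hw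
    · intro y hy
      set x : V := ∑ p : Σ s : S.ι, Fin (S.len s + 1),
        (if h : (p.2 : ℕ) + a < S.len p.1 + 1 then S.b.repr y ⟨p.1, ⟨p.2 + a, h⟩⟩ else 0) • S.b p
        with hx
      have hr : ∀ (s : S.ι) (i : ℕ) (hi : i < S.len s + 1), S.b.repr x ⟨s, ⟨i, hi⟩⟩ =
          if h : i + a < S.len s + 1 then S.b.repr y ⟨s, ⟨i + a, h⟩⟩ else 0 := by
        intro s i hi
        rw [hx]
        have := S.b.repr_sum_self (fun p => if h : (p.2 : ℕ) + a < S.len p.1 + 1 then
          S.b.repr y ⟨p.1, ⟨p.2 + a, h⟩⟩ else 0)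
        exact congrFun this ⟨s, ⟨i, hi⟩⟩
      refine ⟨x, ?_, ?_⟩
      · apply mem_of_repr S
        rintro ⟨s, ⟨i, hi⟩⟩ hw
        rw [hr]
        split_ifs with h
        · apply repr_eq_zero_of_mem hgr S hy
          rw [hwt] at hw ⊢
          simp only at hw ⊢
          push_cast
          omega
        · rfl
      · apply S.b.repr.injective
        ext ⟨s, ⟨i, hi⟩⟩
        rcases lt_or_ge i a with hia | hia
        · rw [repr_pow_lt S s i a hi hia]
          symm
          apply repr_eq_zero_of_mem hgr S hy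
          rw [hwt]
          simp only
          omega
        · obtain ⟨j, rfl⟩ := Nat.exists_eq_add_of_le' hia
          rw [repr_pow S s j a hi, hr, dif_pos hi]

end Pool.Agent.Y614.MW
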